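import Pool.Agent.Q289.AC.Stm

/-! Project AC (helper289), job COUNT: most vertices have a separator (helper149). -/

set_option autoImplicit false

namespace Pool.Agent.Q149.AC

open Q289.AC

section
variable {Γ : Type} [Group Γ] {S : Finset Γ}

/-- the points of a geodesic from `1` -/
theorem len_le_mul (hS : Gen S) (a b : Γ) : len S a ≤ len S (a * b) + len S b := by
  have h := len_mul_le hS (a * b) b⁻¹
  rw [mul_inv_cancel_right, len_inv] at h
  exact h

theorem len_le_mul' (hS : Gen S) (a b : Γ) : len S b ≤ len S a + len S (a * b) := by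
  have h := len_mul_le hS a⁻¹ (a * b)
  rw [inv_mul_cancel_left, len_inv] at h
  exact h

/-- the claim: no separator of `u` at small distance -/
theorem no_sep (hS : Gen S) (R CF ρ r i : ℕ) (x y w : Γ) (hw : len S w ≤ CF)
    (hxy : len S (x * y) = len S x + len S y) (hy : len S y = i)
    (hsep : ¬ Av (cay S) (Bl S R x) 1 (x * w * y))
    (hbad : ∀ g : Γ, ρ ≤ len S (g⁻¹ * (x * y)) → len S (g⁻¹ * (x * y)) ≤ r →
      Av (cay S) (Bl S R g) 1 (x * y))
    (hir : i ≤ r) (g : Γ) (hg1 : ρ ≤ len S (g⁻¹ * (x * w * y)))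
    (hg2 : len S (g⁻¹ * (x * w * y)) + (CF + 2 * R + 1) ≤ i) :
    Av (cay S) (Bl S R g) 1 (x * w * y) := by
  set u := x * w * y with hu
  set g' := x * w⁻¹ * x⁻¹ * g with hg'
  have e1 : g'⁻¹ * (x * y) = g⁻¹ * u := by rw [hg', hu]; group
  -- `v` is bad
  have h1 : Av (cay S) (Bl S R g') 1 (x * y) := hbad g' (by rw [e1]; exact hg1) (by rw [e1]; omega)
  -- the geodesic from `x` to `1`
  have h2 : Av (cay S) (Bl S R g') x 1 := by
    refine av_of_geo hS fun z hz hzB => ?_
    have hzB' : len S (g'⁻¹ * z) ≤ R := hzB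
    rw [mul_one, mul_one, len_inv, len_inv] at hz
    have h3 := len_tri hS z g' (x * y)
    rw [e1, len_comm z g'] at h3
    have h4 : len S (x * y) ≤ len S z + len S (z⁻¹ * (x * y)) := by
      have := len_mul_le hS z (z⁻¹ * (x * y))
      rwa [mul_inv_cancel_left] at this
    omega
  have h3 : Av (cay S) (Bl S R g') x (x * y) := h2.trans h1
  have h4 : Av (cay S) (Bl S R g) (x * w) u := by
    have h5 := (av_mul R (x * w * x⁻¹) g' x (x * y)).mpr h3
    have e2 : x * w * x⁻¹ * g' = g := by rw [hg']; group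
    have e3 : x * w * x⁻¹ * x = x * w := by group
    have e4 : x * w * x⁻¹ * (x * y) = u := by rw [hu]; group
    rwa [e2, e3, e4] at h5
  -- the geodesic from `x` to `x w`
  have h5 : Av (cay S) (Bl S R g) x (x * w) := by
    refine av_of_geo hS fun z hz hzB => ?_
    have hzB' : len S (g⁻¹ * z) ≤ R := hzB
    have e2 : x⁻¹ * (x * w) = w := by group
    rw [e2] at hz
    have h6 : len S y ≤ len S (z⁻¹ * (x * w)) + len S (z⁻¹ * u) := by
      have := len_le_mul' hS (z⁻¹ * (x * w)) y
      have e3 : z⁻¹ * (x * w) * y = z⁻¹ * u := by rw [hu]; group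
      rwa [e3] at this
    have h7 := len_tri hS z g u
    rw [len_comm z g] at h7
    omega
  have h6 : Av (cay S) (Bl S R g) x u := h5.trans h4
  -- the geodesic from `1` to `x`
  have hxu : i ≤ len S (x⁻¹ * u) + CF := by
    have e2 : x⁻¹ * u = w * y := by rw [hu]; group
    rw [e2, ← hy]
    have := len_le_mul' hS w y
    omega
  have h7 : Av (cay S) (Bl S R g) 1 x := by
    refine av_of_geo hS fun z hz hzB => ?_
    have hzB' : len S (g⁻¹ * z) ≤ R := hzB
    rw [inv_one, one_mul, one_mul] at hz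
    have h8 := len_tri hS z g u
    rw [len_comm z g] at h8
    have h9 : len S (x⁻¹ * u) ≤ R + len S (z⁻¹ * u) := by
      by_cases hzx : len S (z⁻¹ * x) ≤ R
      · have := len_tri hS x z u
        rw [len_comm x z] at this
        omega
      · have h10 : Av (cay S) (Bl S R x) 1 z := by
          refine av_of_geo hS fun z' hz' hzB' => ?_
          have hzB'' : len S (x⁻¹ * z') ≤ R := hzB'
          rw [inv_one, one_mul, one_mul] at hz'
          -- `|z'| + |z'⁻¹ z| = |z|`, `|x| <= |z'| + |z'⁻¹ x|`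
          have h11 : len S x ≤ len S z' + len S (z'⁻¹ * x) := by
            have := len_mul_le hS z' (z'⁻¹ * x)
            rwa [mul_inv_cancel_left] at this
          rw [len_comm z' x] at h11
          omega
        have h11 : ¬ Av (cay S) (Bl S R x) z u := fun h => hsep (h10.trans h)
        obtain ⟨z', hz', hz''⟩ := exists_of_not_av hS h11
        have hz3 : len S (x⁻¹ * z') ≤ R := hz'
        have := len_tri hS x z' u
        omega
    omega
  exact h7.trans h6

theorem ball_mul (hS : Gen S) (n c : ℕ) :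
    Set.ncard {g : Γ | len S g ≤ n + c} ≤ Set.ncard {g : Γ | len S g ≤ c} *
      Set.ncard {g : Γ | len S g ≤ n} := by
  classical
  have hn := finite_ball hS n
  have hc := finite_ball hS c
  have hsub : {g : Γ | len S g ≤ n + c} ⊆
      (fun p : Γ × Γ => p.2 * p.1) '' ({g : Γ | len S g ≤ c} ×ˢ {g : Γ | len S g ≤ n}) := by
    intro g hg
    have hg' : len S g ≤ n + c := hg
    obtain ⟨x, y, hxy, hx, hy⟩ := exists_split hS g (min n (len S g)) (min_le_right _ _)
    refine ⟨(y, x), ⟨?_, ?_⟩, hxy.symm⟩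
    · show len S y ≤ c
      omega
    · show len S x ≤ n
      omega
  refine (Set.ncard_le_ncard hsub ((hc.prod hn).image _)).trans ?_
  refine (Set.ncard_image_le (hc.prod hn)).trans ?_
  rw [Set.ncard_prod]

end

/-- **job COUNT** -/
theorem count (hi : S_Ins) (hm : S_Mult) : S_Count := by
  classical
  intro Γ _ S hS R h3 ρ
  obtain ⟨F, w, hw⟩ := hi Γ S hS R h3
  obtain ⟨Cm, hCm⟩ := hm Γ S hS R F w hw
  set CF := F.sup (len S) with hCF
  have hwF : ∀ a b, len S (w a b) ≤ CF := fun a b => Finset.le_sup (f := len S) (hw a b).1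
  set C1 := CF + 2 * R + 1 with hC1
  set W := C1 + CF with hW
  refine ⟨W * Cm * Set.ncard {g : Γ | len S g ≤ CF} + (ρ + C1), fun r n => ?_⟩
  set Bad : Set Γ := {v : Γ | len S v ≤ n ∧ r < len S v ∧
      ∀ g : Γ, ρ ≤ len S (g⁻¹ * v) → len S (g⁻¹ * v) ≤ r → Av (cay S) (Bl S R g) 1 v} with hBad
  have hfinB := finite_ball hS n
  have hBadsub : Bad ⊆ {v : Γ | len S v ≤ n} := fun v hv => hv.1
  have hBadfin : Bad.Finite := hfinB.subset hBadsub
  have hBadle : Bad.ncard ≤ Set.ncard {v : Γ | len S v ≤ n} := Set.ncard_le_ncard hBadsub hfinB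
  -- the splitting
  have hsplit : ∀ p : Γ × ℕ, ∃ q : Γ × Γ, p.2 ≤ len S p.1 →
      p.1 = q.1 * q.2 ∧ len S q.1 = len S p.1 - p.2 ∧ len S q.2 = p.2 := by
    intro p
    by_cases hp : p.2 ≤ len S p.1
    · obtain ⟨x, y, hxy, hx, hy⟩ := exists_split hS p.1 (len S p.1 - p.2) (Nat.sub_le _ _)
      exact ⟨(x, y), fun _ => ⟨hxy, hx, by show len S y = p.2; omega⟩⟩
    · exact ⟨(1, 1), fun h => absurd h hp⟩
  choose q hq using hsplit
  set BadF := hBadfin.toFinset with hBadF
  have hmemBad : ∀ v, v ∈ BadF ↔ v ∈ Bad := fun v => Set.Finite.mem_toFinset hBadfin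
  set P : Finset (Γ × ℕ) := BadF ×ˢ Finset.Icc (ρ + C1) r with hP
  set Φ : Γ × ℕ → Γ := fun p => (q p).1 * w (q p).1 (q p).2 * (q p).2 with hΦ
  have hPq : ∀ p ∈ P, p.1 ∈ Bad ∧ ρ + C1 ≤ p.2 ∧ p.2 ≤ r ∧ p.1 = (q p).1 * (q p).2 ∧
      len S (q p).1 = len S p.1 - p.2 ∧ len S (q p).2 = p.2 := by
    intro p hp
    obtain ⟨h1, h2⟩ := Finset.mem_product.mp hp
    rw [Finset.mem_Icc] at h2
    have h4 := (hmemBad _).mp h1
    have h5 : p.2 ≤ len S p.1 := h2.2.trans h4.2.1.le
    exact ⟨h4, h2.1, h2.2, hq p h5⟩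
  -- the key property
  have hkey : ∀ p ∈ P, ∀ p' ∈ P, Φ p = Φ p' → p.2 < p'.2 + W := by
    intro p hp p' hp' hΦΦ
    obtain ⟨b1, b2, b3, b4, b5, b6⟩ := hPq p hp
    obtain ⟨c1, c2, c3, c4, c5, c6⟩ := hPq p' hp'
    by_contra hlt
    rw [not_lt] at hlt
    have hsep := (hw (q p').1 (q p').2).2
    have hd1 : len S ((q p').1⁻¹ * Φ p) ≤ CF + p'.2 := by
      rw [hΦΦ, hΦ]
      simp only
      have e : (q p').1⁻¹ * ((q p').1 * w (q p').1 (q p').2 * (q p').2) =
          w (q p').1 (q p').2 * (q p').2 := by group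
      rw [e]
      have h4 := len_mul_le hS (w (q p').1 (q p').2) (q p').2
      have h5 := hwF (q p').1 (q p').2
      omega
    have hd2 : ρ ≤ len S ((q p').1⁻¹ * Φ p) := by
      rw [hΦΦ, hΦ]
      simp only
      have e : (q p').1⁻¹ * ((q p').1 * w (q p').1 (q p').2 * (q p').2) =
          w (q p').1 (q p').2 * (q p').2 := by group
      rw [e]
      have h4 := len_le_mul' hS (w (q p').1 (q p').2) (q p').2
      have h5 := hwF (q p').1 (q p').2
      omega
    have hlen : len S ((q p).1 * (q p).2) = len S (q p).1 + len S (q p).2 := by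
      rw [← b4, b5, b6]
      have := b1.2.1
      omega
    have hno := no_sep hS R CF ρ r p.2 (q p).1 (q p).2 (w (q p).1 (q p).2) (hwF _ _) hlen b6
      (hw (q p).1 (q p).2).2 (fun g h6 h7 => by
        rw [← b4] at h6 h7 ⊢
        exact b1.2.2 g h6 h7) b3 (q p').1 hd2 (by
        have : len S ((q p').1⁻¹ * ((q p).1 * w (q p).1 (q p).2 * (q p).2)) ≤ CF + p'.2 := hd1
        omega)
    apply hsep
    have : Av (cay S) (Bl S R (q p').1) 1 (Φ p) := hno
    rw [hΦΦ] at this
    exact this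
  -- the fibres
  have hfib : ∀ u ∈ P.image Φ, (P.filter (fun p => Φ p = u)).card ≤ W * Cm := by
    intro u _
    set G := P.filter (fun p => Φ p = u) with hG
    have hGi : (G.image Prod.snd).card ≤ W := by
      rcases G.eq_empty_or_nonempty with h | h
      · rw [h, Finset.image_empty, Finset.card_empty]
        exact Nat.zero_le _
      · obtain ⟨p₀, hp₀, hmin⟩ := Finset.exists_min_image G Prod.snd h
        have hsub : G.image Prod.snd ⊆ Finset.Ico p₀.2 (p₀.2 + W) := by
          intro i hi'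
          obtain ⟨p, hp, rfl⟩ := Finset.mem_image.mp hi'
          rw [Finset.mem_Ico]
          refine ⟨hmin p hp, ?_⟩
          obtain ⟨a1, a2⟩ := Finset.mem_filter.mp hp
          obtain ⟨a3, a4⟩ := Finset.mem_filter.mp hp₀
          exact hkey p a1 p₀ a3 (a2.trans a4.symm)
        refine (Finset.card_le_card hsub).trans ?_
        rw [Nat.card_Ico]
        omega
    have hGc : G.card ≤ Cm * (G.image Prod.snd).card := by
      refine Finset.card_le_mul_card_image G Cm fun i _ => ?_
      obtain ⟨hfin, hcard⟩ := hCm i u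
      have hsub : (((G.filter (fun p => p.2 = i)).image q : Finset (Γ × Γ)) : Set (Γ × Γ)) ⊆
          {p : Γ × Γ | len S p.2 = i ∧ p.1 * w p.1 p.2 * p.2 = u} := by
        intro z hz
        rw [Finset.mem_coe] at hz
        obtain ⟨p, hp, rfl⟩ := Finset.mem_image.mp hz
        obtain ⟨a1, a2⟩ := Finset.mem_filter.mp hp
        obtain ⟨a3, a4⟩ := Finset.mem_filter.mp a1
        exact ⟨(hPq p a3).2.2.2.2.2.trans a2, a4⟩
      have hinj : Set.InjOn q (G.filter (fun p => p.2 = i) : Finset (Γ × ℕ)) := by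
        intro p hp p' hp' hqq
        rw [Finset.mem_coe] at hp hp'
        obtain ⟨a1, a2⟩ := Finset.mem_filter.mp hp
        obtain ⟨a3, _⟩ := Finset.mem_filter.mp a1
        obtain ⟨b1, b2⟩ := Finset.mem_filter.mp hp'
        obtain ⟨b3, _⟩ := Finset.mem_filter.mp b1
        have h4 := (hPq p a3).2.2.2.1
        have h5 := (hPq p' b3).2.2.2.1
        refine Prod.ext ?_ (a2.trans b2.symm)
        rw [h4, h5, hqq]
      rw [← Finset.card_image_of_injOn hinj, ← Set.ncard_coe_finset]
      exact (Set.ncard_le_ncard hsub hfin).trans hcard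
    calc G.card ≤ Cm * (G.image Prod.snd).card := hGc
      _ ≤ Cm * W := Nat.mul_le_mul_left _ hGi
      _ = W * Cm := Nat.mul_comm _ _
  have hPcard : P.card ≤ (W * Cm) * (P.image Φ).card :=
    Finset.card_le_mul_card_image P (W * Cm) hfib
  have himg : (P.image Φ).card ≤ Set.ncard {g : Γ | len S g ≤ n + CF} := by
    rw [← Set.ncard_coe_finset]
    refine Set.ncard_le_ncard ?_ (finite_ball hS _)
    intro u hu
    rw [Finset.mem_coe] at hu
    obtain ⟨p, hp, rfl⟩ := Finset.mem_image.mp hu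
    obtain ⟨b1, b2, b3, b4, b5, b6⟩ := hPq p hp
    show len S ((q p).1 * w (q p).1 (q p).2 * (q p).2) ≤ n + CF
    have h4 := len_mul_le hS ((q p).1 * w (q p).1 (q p).2) (q p).2
    have h5 := len_mul_le hS (q p).1 (w (q p).1 (q p).2)
    have h6 := hwF (q p).1 (q p).2
    have h7 := b1.1
    have h8 := b1.2.1
    omega
  have hball := ball_mul hS n CF
  have hcardP : P.card = Bad.ncard * (r + 1 - (ρ + C1)) := by
    rw [hP, Finset.card_product, Nat.card_Icc, Set.ncard_eq_toFinset_card _ hBadfin]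
  have hmain : Bad.ncard * (r + 1 - (ρ + C1)) ≤
      (W * Cm * Set.ncard {g : Γ | len S g ≤ CF}) * Set.ncard {g : Γ | len S g ≤ n} := by
    rw [← hcardP]
    calc P.card ≤ (W * Cm) * (P.image Φ).card := hPcard
      _ ≤ (W * Cm) * (Set.ncard {g : Γ | len S g ≤ CF} * Set.ncard {g : Γ | len S g ≤ n}) :=
        Nat.mul_le_mul_left _ (himg.trans hball)
      _ = _ := by ring
  calc Bad.ncard * r ≤ Bad.ncard * ((r + 1 - (ρ + C1)) + (ρ + C1)) :=
        Nat.mul_le_mul_left _ (by omega)
    _ = Bad.ncard * (r + 1 - (ρ + C1)) + (ρ + C1) * Bad.ncard := by ring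
    _ ≤ (W * Cm * Set.ncard {g : Γ | len S g ≤ CF}) * Set.ncard {g : Γ | len S g ≤ n} +
        (ρ + C1) * Set.ncard {g : Γ | len S g ≤ n} :=
        Nat.add_le_add hmain (Nat.mul_le_mul_left _ hBadle)
    _ = _ := by ring

end Pool.Agent.Q149.AC
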