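import Pool.Agent.Q289.AC.Stm

/-! Project AC (helper289), job DEG: the degenerate configuration is impossible (helper149). -/

set_option autoImplicit false

namespace Pool.Agent.Q149.AC

open Q289.AC

theorem deg (hr : S_Rule) : S_Deg := by
  classical
  intro Γ _ S hS R D s x y hRD hDx hDy hxs hys hxy hw
  set K := Bl S R (1 : Γ) with hK
  have hmemK : ∀ g : Γ, g ∈ K ↔ len S g ≤ R := mem_Bl_one R
  have hxi : Av (cay S) K x⁻¹ s := (hw x hDx).resolve_left hxs
  have hyi : Av (cay S) K y⁻¹ s := (hw y hDy).resolve_left hys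
  have h2x : 2 * R < len S x := lt_of_le_of_lt hRD hDx
  have h2y : 2 * R < len S y := lt_of_le_of_lt hRD hDy
  have hxK : x ∉ K := fun h => by rw [hmemK] at h; omega
  have hyK : y ∉ K := fun h => by rw [hmemK] at h; omega
  -- the rules for `x` and `y`
  have rx : ∀ v : Γ, ¬ Av (cay S) K v s →
      len S x + len S v ≤ len S (x * v) + 2 * R ∧ Av (cay S) K x (x * v) := by
    intro v hv
    have h1 : ¬ Av (cay S) K x⁻¹ v := fun h => hv (h.symm.trans hxi)
    have h2 := hr Γ S hS R x v h1
    exact ⟨h2.1, h2.2 h2x⟩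
  have ry : ∀ v : Γ, ¬ Av (cay S) K v s → Av (cay S) K y (y * v) := by
    intro v hv
    have h1 : ¬ Av (cay S) K y⁻¹ v := fun h => hv (h.symm.trans hyi)
    exact (hr Γ S hS R y v h1).2 h2y
  have h1C : ¬ Av (cay S) K 1 s := fun h => h.1 (by rw [hmemK, len_one]; omega)
  have notC : ∀ v : Γ, Av (cay S) K x v → ¬ Av (cay S) K v s := fun v h h' => hxs (h.trans h')
  -- (P)
  have hP : ∀ (v : Γ), ¬ Av (cay S) K v s → ∀ k : ℕ, Av (cay S) K x (x ^ (k + 1) * v) := by
    intro v hv k
    induction k with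
    | zero =>
      rw [zero_add, pow_one]
      exact (rx v hv).2
    | succ k ih =>
      have e : x ^ (k + 1 + 1) * v = x * (x ^ (k + 1) * v) := by rw [pow_succ']; group
      rw [e]
      exact (rx _ (notC _ ih)).2
  have hxn : ∀ k : ℕ, Av (cay S) K x (x ^ (k + 1)) := by
    intro k
    have := hP 1 h1C k
    rwa [mul_one] at this
  have hxnC : ∀ k : ℕ, ¬ Av (cay S) K (x ^ k) s := by
    intro k
    rcases k with _ | k
    · rw [pow_zero]; exact h1C
    · exact notC _ (hxn k)
  have hlen : ∀ k : ℕ, 2 * R + k < len S (x ^ (k + 1)) := by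
    intro k
    induction k with
    | zero =>
      rw [zero_add, pow_one]
      exact h2x
    | succ k ih =>
      have h := (rx _ (hxnC (k + 1))).1
      rw [← pow_succ'] at h
      omega
  -- (c)
  have hc : ∀ g : Γ, ∃ N : ℕ, Av (cay S) K x (x ^ N * g) := by
    intro g
    by_contra hne
    push Not at hne
    have hall : ∀ n : ℕ, Av (cay S) K (x ^ n * g) s := by
      intro n
      by_contra hn
      exact hne (0 + 1 + n) (by
        have h := hP _ hn 0
        have e : x ^ (0 + 1 + n) * g = x ^ (0 + 1) * (x ^ n * g) := by rw [pow_add]; group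
        rw [e]
        exact h)
    obtain ⟨p⟩ := reach hS g 1
    have hz : ∀ n : ℕ, ∃ z ∈ p.support, len S (x ^ n * z) ≤ R := by
      intro n
      by_contra hcon
      push Not at hcon
      have h1 : Av (cay S) (Bl S R (x ^ n)⁻¹) g 1 := by
        refine av_of_walk p fun z hz hzB => ?_
        have h2 := hcon z hz
        have h3 : len S (((x ^ n)⁻¹)⁻¹ * z) ≤ R := hzB
        rw [inv_inv] at h3
        omega
      rw [← av_mul R (x ^ n) (x ^ n)⁻¹ g 1, mul_inv_cancel, mul_one] at h1
      exact hxnC n (h1.symm.trans (hall n))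
    choose z hz1 hz2 using hz
    let φ : ℕ → {v // v ∈ p.support.toFinset} := fun n => ⟨z n, List.mem_toFinset.mpr (hz1 n)⟩
    have hinj : Function.Injective φ := by
      have key : ∀ n k : ℕ, z n ≠ z (n + (k + 1)) := by
        intro n k heq
        have h1 := hz2 n
        have h2 := hz2 (n + (k + 1))
        rw [← heq] at h2
        have e : x ^ (k + 1) = (x ^ (n + (k + 1)) * z n) * (x ^ n * z n)⁻¹ := by
          rw [add_comm n, pow_add]
          group
        have h3 := len_mul_le hS (x ^ (n + (k + 1)) * z n) (x ^ n * z n)⁻¹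
        rw [← e, len_inv] at h3
        have h4 := hlen k
        omega
      intro n n' h
      have h' : z n = z n' := congrArg Subtype.val h
      rcases lt_trichotomy n n' with hlt | heq | hgt
      · obtain ⟨k, rfl⟩ := Nat.exists_eq_add_of_lt hlt
        exact absurd h' (key n k)
      · exact heq
      · obtain ⟨k, rfl⟩ := Nat.exists_eq_add_of_lt hgt
        exact absurd h'.symm (key n' k)
    exact not_injective_infinite_finite φ hinj
  have hcN : ∀ g : Γ, ∃ N : ℕ, ∀ n, N ≤ n → Av (cay S) K x (x ^ n * g) := by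
    intro g
    obtain ⟨N, hN⟩ := hc g
    refine ⟨N, fun n hn => ?_⟩
    rcases Nat.eq_or_lt_of_le hn with h | h
    · rw [← h]; exact hN
    · obtain ⟨k, rfl⟩ := Nat.exists_eq_add_of_lt h
      have h1 := hP _ (notC _ hN) k
      have e : x ^ (N + k + 1) * g = x ^ (k + 1) * (x ^ N * g) := by
        rw [show N + k + 1 = (k + 1) + N by ring, pow_add]
        group
      rw [e]
      exact h1
  -- (2)
  obtain ⟨n₁, hn₁⟩ : ∃ n₁ : ℕ, ∀ n, n₁ ≤ n → Av (cay S) K (y * (x ^ n)⁻¹) s := by
    obtain ⟨N, hN⟩ := hcN y⁻¹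
    refine ⟨N + D + len S y + 1, fun n hn => ?_⟩
    have h1 := hN n (by omega)
    have h2 : D < len S (x ^ n * y⁻¹) := by
      obtain ⟨k, rfl⟩ : ∃ k, n = k + 1 := ⟨n - 1, by omega⟩
      have h3 := hlen k
      have h4 := len_mul_le hS (x ^ (k + 1) * y⁻¹) y
      rw [inv_mul_cancel_right] at h4
      omega
    have h3 := (hw _ h2).resolve_left (notC _ h1)
    have e : (x ^ n * y⁻¹)⁻¹ = y * (x ^ n)⁻¹ := by group
    rwa [e] at h3
  -- (3)
  have h3 : ∀ n, n₁ ≤ n → ∃ m : ℕ, len S (x ^ m * y * (x ^ n)⁻¹) ≤ D + len S x + 2 * R := by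
    intro n hn
    have hex : ∃ m : ℕ, ¬ Av (cay S) K (x ^ m * y * (x ^ n)⁻¹) s := by
      obtain ⟨N, hN⟩ := hc (y * (x ^ n)⁻¹)
      refine ⟨N, ?_⟩
      rw [mul_assoc]
      exact notC _ hN
    set m := Nat.find hex with hm
    have hm1 := Nat.find_spec hex
    rw [← hm] at hm1
    have hmpos : m ≠ 0 := by
      intro h0
      rw [h0, pow_zero, one_mul] at hm1
      exact hm1 (hn₁ n hn)
    obtain ⟨l, hl⟩ : ∃ l, m = l + 1 := ⟨m - 1, by omega⟩
    have hl1 : Av (cay S) K (x ^ l * y * (x ^ n)⁻¹) s := by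
      by_contra hcon
      exact Nat.find_min hex (by omega : l < m) hcon
    refine ⟨m, ?_⟩
    by_contra hlt
    rw [not_le] at hlt
    set g := x ^ m * y * (x ^ n)⁻¹ with hg
    set g' := x ^ l * y * (x ^ n)⁻¹ with hg'
    have hgg : g' = x⁻¹ * g := by
      rw [hg, hg', hl, pow_succ']
      group
    have hgi : Av (cay S) K g⁻¹ s := (hw g (by omega)).resolve_left hm1
    have hg'len : len S g ≤ len S x + len S g' := by
      have h9 := len_mul_le hS x g'
      have e9 : x * g' = g := by rw [hgg, mul_inv_cancel_left]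
      rwa [e9] at h9
    have hg'i : Av (cay S) K g'⁻¹ (x ^ n) := by
      by_contra hcon
      have h4 := (hr Γ S hS R g' (x ^ n) hcon).2 (by omega)
      have e : g' * x ^ n = x ^ l * y := by rw [hg']; group
      rw [e] at h4
      have h5 : Av (cay S) K (x ^ l * y) s := h4.symm.trans hl1
      rcases l with _ | l
      · rw [pow_zero, one_mul] at h5
        exact hys h5
      · exact notC _ (hP y hys l) h5
    have hxn' : Av (cay S) K x (x ^ n) := by
      rcases n with _ | n
      · exfalso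
        rw [pow_zero] at hg'i
        exact hg'i.right (by rw [hmemK, len_one]; omega)
      · exact hxn n
    have hge : Av (cay S) K g⁻¹ g'⁻¹ := by
      have e : g'⁻¹ = g⁻¹ * x := by rw [hgg]; group
      refine av_of_geo hS fun z hz hzK => ?_
      rw [hmemK] at hzK
      have h6 : len S ((g⁻¹)⁻¹ * g'⁻¹) = len S x := by
        rw [e]
        congr 1
        group
      rw [h6] at hz
      have h7 := len_mul_le hS z⁻¹ z
      have h8 : len S (g⁻¹) ≤ len S z + len S ((g⁻¹)⁻¹ * z) := by
        have h9 := len_tri hS 1 z g⁻¹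
        rw [inv_one, one_mul, one_mul, len_comm z g⁻¹] at h9
        exact h9
      rw [len_inv] at h8
      omega
    exact hxs (hxn'.trans (hg'i.symm.trans (hge.symm.trans hgi)))
  -- (4)
  choose! mm hmm using h3
  have hfin := finite_ball hS (D + len S x + 2 * R)
  have hsub : (fun n => x ^ mm (n₁ + n) * y * (x ^ (n₁ + n))⁻¹) '' Set.univ ⊆
      {g : Γ | len S g ≤ D + len S x + 2 * R} := by
    rintro _ ⟨n, _, rfl⟩
    exact hmm (n₁ + n) (Nat.le_add_right _ _)
  have hninj : ¬ Set.InjOn (fun n : ℕ => x ^ mm (n₁ + n) * y * (x ^ (n₁ + n))⁻¹) Set.univ := by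
    intro hinj
    exact Set.infinite_univ (Set.Finite.of_finite_image (hfin.subset hsub) hinj)
  have hcoll : ∃ a b : ℕ, a < b ∧ x ^ mm (n₁ + a) * y * (x ^ (n₁ + a))⁻¹ =
      x ^ mm (n₁ + b) * y * (x ^ (n₁ + b))⁻¹ := by
    by_contra hcon
    push Not at hcon
    apply hninj
    intro a _ b _ hab
    rcases lt_trichotomy a b with h | h | h
    · exact absurd hab (hcon a b h)
    · exact h
    · exact absurd hab.symm (hcon b a h)
  obtain ⟨a, b, hab, heq⟩ := hcoll
  obtain ⟨d, rfl⟩ := Nat.exists_eq_add_of_lt hab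
  -- `x ^ m' * y * x ^ (d + 1) = x ^ m * y`
  have heq2 : x ^ mm (n₁ + a) * (y * x ^ (d + 1)) = x ^ mm (n₁ + (a + d + 1)) * y := by
    have h5 : x ^ (n₁ + (a + d + 1)) = x ^ (n₁ + a) * x ^ (d + 1) := by
      rw [← pow_add]; congr 1; ring
    have h6 : x ^ (n₁ + (a + d + 1)) = x ^ (d + 1) * x ^ (n₁ + a) := by
      rw [← pow_add]; congr 1; ring
    calc x ^ mm (n₁ + a) * (y * x ^ (d + 1))
        = (x ^ mm (n₁ + a) * y * (x ^ (n₁ + a))⁻¹) * (x ^ (n₁ + a) * x ^ (d + 1)) := by group
      _ = (x ^ mm (n₁ + (a + d + 1)) * y * (x ^ (n₁ + (a + d + 1)))⁻¹) *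
          (x ^ (n₁ + a) * x ^ (d + 1)) := by rw [heq]
      _ = x ^ mm (n₁ + (a + d + 1)) * y := by rw [← h5]; group
  have hyx : Av (cay S) K y (y * x ^ (d + 1)) := ry _ (hxnC (d + 1))
  have hyxC : ¬ Av (cay S) K (y * x ^ (d + 1)) s := fun h => hys (hyx.trans h)
  rcases lt_trichotomy (mm (n₁ + a)) (mm (n₁ + (a + d + 1))) with hlt | he | hgt
  · obtain ⟨k, hk⟩ := Nat.exists_eq_add_of_lt hlt
    have e : y * x ^ (d + 1) = x ^ (k + 1) * y := by
      have : x ^ mm (n₁ + a) * (y * x ^ (d + 1)) = x ^ mm (n₁ + a) * (x ^ (k + 1) * y) := by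
        rw [heq2, hk, add_assoc, pow_add]
        group
      exact mul_left_cancel this
    rw [e] at hyx
    exact hxy ((hP y hys k).trans hyx.symm)
  · rw [he] at heq2
    have h5 := mul_left_cancel heq2
    have h6 : x ^ (d + 1) = 1 := by
      have : y * x ^ (d + 1) = y * 1 := by rw [h5, mul_one]
      exact mul_left_cancel this
    have h7 := hlen d
    rw [h6, len_one] at h7
    omega
  · obtain ⟨k, hk⟩ := Nat.exists_eq_add_of_lt hgt
    have e : x ^ (k + 1) * (y * x ^ (d + 1)) = y := by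
      have : x ^ mm (n₁ + (a + d + 1)) * (x ^ (k + 1) * (y * x ^ (d + 1))) =
          x ^ mm (n₁ + (a + d + 1)) * y := by
        rw [← heq2, hk, add_assoc, pow_add]
        group
      exact mul_left_cancel this
    have h5 := hP _ hyxC k
    rw [e] at h5
    exact hxy h5

end Pool.Agent.Q149.AC
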