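import Pool.Agent.Q289.AC.Stm

/-! Project AC (helper289), job KEY: most vertices of a ball have many cut sets (helper149). -/

set_option autoImplicit false

open Filter

namespace Pool.Agent.Q149.AC

open Q289.AC

section
variable {Γ : Type} [Group Γ] {S : Finset Γ}

theorem walk_induce {V : Type*} {X : SimpleGraph V} {B : Set V} {u v : V} (p : X.Walk u v)
    (h : ∀ z ∈ p.support, z ∈ B) (hu : u ∈ B) (hv : v ∈ B) :
    ∃ p' : (X.induce B).Walk ⟨u, hu⟩ ⟨v, hv⟩, p'.length = p.length := by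
  induction p with
  | nil => exact ⟨SimpleGraph.Walk.nil, rfl⟩
  | cons hadj p ih =>
    rename_i a b c
    have hb : b ∈ B := h b (by simp)
    obtain ⟨p', hp'⟩ := ih (fun z hz => h z (by simp [hz])) hb hv
    exact ⟨SimpleGraph.Walk.cons (show (X.induce B).Adj ⟨a, hu⟩ ⟨b, hb⟩ from hadj) p', by simp [hp']⟩

/-- a geodesic inside a set -/
theorem geo_walk (hS : Gen S) {B : Set Γ} {u v : Γ} (hu : u ∈ B) (hv : v ∈ B)
    (h : ∀ z : Γ, len S (u⁻¹ * z) + len S (z⁻¹ * v) = len S (u⁻¹ * v) → z ∈ B) :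
    ∃ p : ((cay S).induce B).Walk ⟨u, hu⟩ ⟨v, hv⟩, p.length = len S (u⁻¹ * v) := by
  classical
  obtain ⟨p, hp⟩ := (reach hS u v).exists_walk_length_eq_dist
  rw [dist_eq] at hp
  have hsup : ∀ z ∈ p.support, z ∈ B := by
    intro z hz
    refine h z ?_
    have h1 : len S (u⁻¹ * z) ≤ (p.takeUntil z hz).length := by
      rw [← dist_eq]
      exact SimpleGraph.dist_le _
    have h2 : len S (z⁻¹ * v) ≤ (p.dropUntil z hz).length := by
      rw [← dist_eq]
      exact SimpleGraph.dist_le _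
    have h3 : (p.takeUntil z hz).length + (p.dropUntil z hz).length = p.length := by
      rw [← SimpleGraph.Walk.length_append, SimpleGraph.Walk.take_spec]
    have h4 := len_tri hS u z v
    omega
  obtain ⟨p', hp'⟩ := walk_induce p hsup hu hv
  exact ⟨p', hp'.trans hp⟩

theorem av_induce {V : Type*} {X : SimpleGraph V} {B A : Set V} {u v : B}
    (h : Av (X.induce B) (Subtype.val ⁻¹' A) u v) : Av X A u.1 v.1 := by
  obtain ⟨h0, h⟩ := h
  refine ⟨h0, ?_⟩
  induction h with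
  | refl => exact .refl
  | tail _ h2 ih => exact ih.tail ⟨h2.1, h2.2⟩

theorem ncard_Bl (hS : Gen S) (R : ℕ) (g : Γ) : (Bl S R g).ncard ≤ (Bl S R 1).ncard := by
  have h : Bl S R g ⊆ (fun h => g * h) '' (Bl S R 1) := by
    intro h hh
    refine ⟨g⁻¹ * h, ?_, by group⟩
    show len S (1⁻¹ * (g⁻¹ * h)) ≤ R
    rw [inv_one, one_mul]
    exact hh
  exact (Set.ncard_le_ncard h ((finite_Bl hS R 1).image _)).trans
    (Set.ncard_image_le (finite_Bl hS R 1))

/-- `|v| ≤ |z| + |z⁻¹ v|` -/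
theorem len_le_add (hS : Gen S) (z v : Γ) : len S v ≤ len S z + len S (z⁻¹ * v) := by
  have := len_mul_le hS z (z⁻¹ * v)
  rwa [mul_inv_cancel_left] at this

/-- the good vertices -/
theorem good (hS : Gen S) (R n t m : ℕ) (ρ r : ℕ → ℕ) (rM : ℕ) (hrM : ∀ j, j < m → r j ≤ rM)
    (hρ0 : ∀ j, 4 * R + 1 ≤ ρ j) (hρ : ∀ i j, i < j → r i + 2 * R + 2 ≤ ρ j)
    (v : Γ) (hv : len S v ≤ n) (hvt : n ≤ len S v + t)
    (hg : ∀ j, j < m → ∃ g : Γ, ρ j ≤ len S (g⁻¹ * v) ∧ len S (g⁻¹ * v) ≤ r j ∧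
      ¬ Av (cay S) (Bl S R g) 1 v) (hvB : v ∈ Bn S n) :
    Cuts ((cay S).induce (Bn S n)) ⟨v, hvB⟩ (t + 2 * rM + 4 * R) m ((Bl S R (1 : Γ)).ncard) := by
  classical
  choose g hg1 hg2 hg3 using hg
  -- the distances to `v` in the ball
  have hz' : ∀ (j : ℕ) (hj : j < m), ∃ z', z' ∈ Bl S R (g j hj) ∧
      len S z' + len S (z'⁻¹ * v) = len S v := by
    intro j hj
    obtain ⟨z', hz1, hz2⟩ := exists_of_not_av hS (hg3 j hj)
    rw [inv_one, one_mul, one_mul] at hz2
    exact ⟨z', hz1, hz2⟩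
  have hAB : ∀ (j : ℕ) (hj : j < m) (z : Γ), z ∈ Bl S R (g j hj) →
      len S z + ρ j ≤ n + 3 * R ∧ ρ j ≤ len S (z⁻¹ * v) + R ∧ len S (z⁻¹ * v) ≤ r j + R := by
    intro j hj z hz
    obtain ⟨z', hz1, hz2⟩ := hz' j hj
    have h1 : len S ((g j hj)⁻¹ * z) ≤ R := hz
    have h1' : len S ((g j hj)⁻¹ * z') ≤ R := hz1
    have h2 := hg1 j hj
    have h3 := hg2 j hj
    have h4 := len_tri hS (g j hj) z v
    have h5 := len_tri hS z (g j hj) v
    rw [len_comm z (g j hj)] at h5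
    have h6 := len_tri hS (g j hj) z' v
    have h7 := len_tri hS z' (g j hj) z
    rw [len_comm z' (g j hj)] at h7
    have h8 := len_le_add hS z' z
    refine ⟨?_, ?_, ?_⟩ <;> omega
  have hmemB : ∀ (j : ℕ) (hj : j < m) (z : Γ), z ∈ Bl S R (g j hj) → z ∈ Bn S n := by
    intro j hj z hz
    rw [mem_Bn hS]
    have h1 := (hAB j hj z hz).1
    have h2 := hρ0 j
    omega
  -- a walk from `v` to a point of a cut set
  have hwalk : ∀ (j : ℕ) (hj : j < m) (z : Γ) (hz : z ∈ Bl S R (g j hj)),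
      ∃ p : ((cay S).induce (Bn S n)).Walk ⟨v, hvB⟩ ⟨z, hmemB j hj z hz⟩,
        p.length ≤ r j + 3 * R := by
    intro j hj z hz
    obtain ⟨z', hz1, hz2⟩ := hz' j hj
    have hd := (hAB j hj z' hz1).2.2
    obtain ⟨p1, hp1⟩ := geo_walk hS hvB (hmemB j hj z' hz1) (fun y hy => by
      rw [mem_Bn hS]
      have h1 := len_le_add hS z' y
      rw [len_comm v z', len_comm v y, len_comm y z'] at hy
      omega)
    have hzz : len S (z'⁻¹ * z) ≤ 2 * R := by
      have h1 : len S ((g j hj)⁻¹ * z) ≤ R := hz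
      have h1' : len S ((g j hj)⁻¹ * z') ≤ R := hz1
      have h7 := len_tri hS z' (g j hj) z
      rw [len_comm z' (g j hj)] at h7
      omega
    obtain ⟨p2, hp2⟩ := geo_walk hS (hmemB j hj z' hz1) (hmemB j hj z hz) (fun y hy => by
      rw [mem_Bn hS]
      have h1 := len_le_add hS z' y
      have h2 := (hAB j hj z' hz1).2.1
      have h3 := hρ0 j
      omega)
    refine ⟨p1.append p2, ?_⟩
    rw [SimpleGraph.Walk.length_append, hp1, hp2, len_comm v z']
    omega
  refine ⟨fun j => Subtype.val ⁻¹' Bl S R (g j.1 j.2), ?_, ?_, ?_, ?_⟩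
  · intro j
    have hfin := finite_Bl hS R (g j.1 j.2)
    have hfin' : (Subtype.val ⁻¹' Bl S R (g j.1 j.2) : Set (Bn S n)).Finite :=
      hfin.preimage Subtype.val_injective.injOn
    refine ⟨hfin', ?_⟩
    rw [← Set.ncard_image_of_injective _ Subtype.val_injective]
    exact (Set.ncard_le_ncard (Set.image_preimage_subset _ _) hfin).trans (ncard_Bl hS R _)
  · intro j z hz
    obtain ⟨p, hp⟩ := hwalk j.1 j.2 z.1 hz
    have := hrM j.1 j.2
    exact ⟨p, by omega⟩
  · have key : ∀ i j : Fin m, i < j → ∀ a b : Γ, a ∈ Bl S R (g i.1 i.2) → b ∈ Bl S R (g j.1 j.2) →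
        2 ≤ len S (a⁻¹ * b) := by
      intro i j hij a b ha hb
      have h1 := (hAB i.1 i.2 a ha).2.2
      have h2 := (hAB j.1 j.2 b hb).2.1
      have h3 := hρ i.1 j.1 hij
      have h4 := len_tri hS b a v
      rw [len_comm b a] at h4
      omega
    have key2 : ∀ i j : Fin m, i ≠ j → ∀ a b : Γ, a ∈ Bl S R (g i.1 i.2) →
        b ∈ Bl S R (g j.1 j.2) → 2 ≤ len S (a⁻¹ * b) := by
      intro i j hij a b ha hb
      rcases lt_or_gt_of_ne hij with h | h
      · exact key i j h a b ha hb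
      · rw [len_comm a b]
        exact key j i h b a hb ha
    intro i j hij a ha b hb
    have h1 := key2 i j hij a.1 b.1 ha hb
    refine ⟨fun h => ?_, fun h => ?_⟩
    · rw [h, inv_mul_cancel, len_one] at h1
      omega
    · have h2 : (cay S).Adj a.1 b.1 := h
      have h3 : (cay S).dist a.1 b.1 = 1 := SimpleGraph.dist_eq_one_iff_adj.2 h2
      rw [dist_eq] at h3
      omega
  · intro j u hu
    have h1 : Av (cay S) (Bl S R (g j.1 j.2)) v u.1 := av_induce hu
    have h2 : ¬ Av (cay S) (Bl S R (g j.1 j.2)) 1 u.1 := fun h => hg3 j.1 j.2 (h.trans h1.symm)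
    obtain ⟨z, hz1, hz2⟩ := exists_of_not_av hS h2
    rw [inv_one, one_mul, one_mul] at hz2
    have huB : len S u.1 ≤ n := (mem_Bn hS n u.1).mp u.2
    obtain ⟨p1, hp1⟩ := hwalk j.1 j.2 z hz1
    obtain ⟨p2, hp2⟩ := geo_walk hS (hmemB j.1 j.2 z hz1) u.2 (fun y hy => by
      rw [mem_Bn hS]
      have h3 := len_le_add hS z y
      omega)
    refine ⟨p1.append p2, ?_⟩
    rw [SimpleGraph.Walk.length_append, hp2]
    have h3 := (hAB j.1 j.2 z hz1).2.2
    have h4 := len_le_add hS z v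
    have h5 := hrM j.1 j.2
    omega

end

/-- **job KEY** -/
theorem key (he : S_End) (hg : S_Grow) (hc : S_Count) : S_Key := by
  classical
  intro Γ _ S hS hinf
  obtain ⟨R, h3⟩ := he Γ S hS hinf
  refine ⟨(Bl S R (1 : Γ)).ncard, fun m ε hε => ?_⟩
  obtain ⟨t, ht⟩ := hg Γ S hS R h3 (ε / 2) (by positivity)
  choose C hC using hc Γ S hS R h3
  -- the choice of the radii
  have hrr : ∀ ρ : ℕ, ∃ r : ℕ, ρ ≤ r ∧ 0 < r ∧ (C ρ : ℝ) ≤ ε / (2 * (m + 1)) * r := by
    intro ρ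
    obtain ⟨N, hN⟩ := exists_nat_ge ((C ρ : ℝ) / (ε / (2 * (m + 1))))
    refine ⟨max (ρ + 1) N, by omega, by omega, ?_⟩
    have hpos : 0 < ε / (2 * ((m : ℝ) + 1)) := by positivity
    rw [div_le_iff₀ hpos] at hN
    have h1 : (N : ℝ) ≤ ((max (ρ + 1) N : ℕ) : ℝ) := by exact_mod_cast le_max_right _ _
    calc (C ρ : ℝ) ≤ N * (ε / (2 * (m + 1))) := hN
      _ ≤ ((max (ρ + 1) N : ℕ) : ℝ) * (ε / (2 * (m + 1))) := mul_le_mul_of_nonneg_right h1 hpos.le
      _ = _ := by ring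
  choose rr hrr1 hrr2 hrr3 using hrr
  let ρs : ℕ → ℕ := fun j => Nat.rec (4 * R + 1) (fun _ x => rr x + 2 * R + 2) j
  have hρs0 : ρs 0 = 4 * R + 1 := rfl
  have hρss : ∀ j, ρs (j + 1) = rr (ρs j) + 2 * R + 2 := fun j => rfl
  have hstep : ∀ j, ρs j < ρs (j + 1) := fun j => by
    rw [hρss]
    have := hrr1 (ρs j)
    omega
  have hmono : StrictMono ρs := strictMono_nat_of_lt_succ hstep
  have hρ0 : ∀ j, 4 * R + 1 ≤ ρs j := fun j => by
    rw [← hρs0]
    exact hmono.monotone (Nat.zero_le j)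
  have hρ : ∀ i j, i < j → rr (ρs i) + 2 * R + 2 ≤ ρs j := by
    intro i j hij
    rw [← hρss]
    exact hmono.monotone hij
  set rM := ρs m with hrM
  have hrMle : ∀ j, j < m → rr (ρs j) ≤ rM := by
    intro j hj
    have := hρ j m hj
    omega
  refine ⟨t + 2 * rM + 4 * R, ?_⟩
  rw [eventually_atTop]
  refine ⟨t + rM + 1, fun n hn => ?_⟩
  -- the exceptional sets
  have hfinB := finite_ball hS n
  set Bad : ℕ → Set Γ := fun j => {v : Γ | len S v ≤ n ∧ rr (ρs j) < len S v ∧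
      ∀ g : Γ, ρs j ≤ len S (g⁻¹ * v) → len S (g⁻¹ * v) ≤ rr (ρs j) →
        Av (cay S) (Bl S R g) 1 v} with hBad
  have hBadfin : ∀ j, (Bad j).Finite := fun j => hfinB.subset fun v hv => hv.1
  set Exc : Set Γ := {v : Γ | len S v ≤ n - t} ∪ ⋃ j ∈ Finset.range m, Bad j with hExc
  have hExcfin : Exc.Finite :=
    (finite_ball hS (n - t)).union (Set.Finite.biUnion (Finset.finite_toSet _) fun j _ => hBadfin j)
  have hBncard : (Nat.card (Bn S n) : ℝ) = Set.ncard {v : Γ | len S v ≤ n} := by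
    have : Bn S n = {v : Γ | len S v ≤ n} := by
      ext v
      exact mem_Bn hS n v
    rw [this]
    rfl
  have h1 : Nat.card {v : Bn S n // ¬ Cuts ((cay S).induce (Bn S n)) v (t + 2 * rM + 4 * R) m
      ((Bl S R (1 : Γ)).ncard)} ≤ Exc.ncard := by
    have hmem : ∀ v : {v : Bn S n // ¬ Cuts ((cay S).induce (Bn S n)) v (t + 2 * rM + 4 * R) m
        ((Bl S R (1 : Γ)).ncard)}, v.1.1 ∈ Exc := by
      rintro ⟨⟨v, hvB⟩, hv⟩
      by_contra hnot
      rw [hExc, Set.mem_union, not_or] at hnot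
      obtain ⟨hn1, hn2⟩ := hnot
      have hvn : len S v ≤ n := (mem_Bn hS n v).mp hvB
      have hvt : ¬ len S v ≤ n - t := hn1
      apply hv
      refine good hS R n t m ρs (fun j => rr (ρs j)) rM hrMle hρ0 hρ v hvn (by omega) ?_ hvB
      intro j hj
      by_contra hcon
      push Not at hcon
      apply hn2
      rw [Set.mem_iUnion₂]
      refine ⟨j, Finset.mem_range.mpr hj, hvn, ?_, hcon⟩
      have := hrMle j hj
      show rr (ρs j) < len S v
      omega
    have : Finite Exc := hExcfin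
    rw [← Nat.card_coe_set_eq]
    refine Nat.card_le_card_of_injective (fun v => (⟨v.1.1, hmem v⟩ : Exc)) ?_
    intro v v' hvv
    have h2 : v.1.1 = v'.1.1 := congrArg (fun z : Exc => z.1) hvv
    exact Subtype.ext (Subtype.ext h2)
  have h2 : (Exc.ncard : ℝ) ≤ ε * Set.ncard {v : Γ | len S v ≤ n} := by
    have h4 : Exc.ncard ≤ Set.ncard {v : Γ | len S v ≤ n - t} +
        ∑ j ∈ Finset.range m, (Bad j).ncard := by
      refine (Set.ncard_union_le _ _).trans (Nat.add_le_add_left ?_ _)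
      exact Finset.set_ncard_biUnion_le (Finset.range m) Bad
    have h5 : (Set.ncard {v : Γ | len S v ≤ n - t} : ℝ) ≤
        ε / 2 * Set.ncard {v : Γ | len S v ≤ n} := by
      have := ht (n - t)
      rwa [show n - t + t = n by omega] at this
    have h6 : ∀ j ∈ Finset.range m, ((Bad j).ncard : ℝ) ≤
        ε / (2 * (m + 1)) * Set.ncard {v : Γ | len S v ≤ n} := by
      intro j _
      have h7 := hC (ρs j) (rr (ρs j)) n
      have h8 : ((Bad j).ncard : ℝ) * rr (ρs j) ≤ C (ρs j) * Set.ncard {v : Γ | len S v ≤ n} := by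
        exact_mod_cast h7
      have h9 : (0 : ℝ) < rr (ρs j) := by exact_mod_cast hrr2 (ρs j)
      have h10 : (C (ρs j) : ℝ) * Set.ncard {v : Γ | len S v ≤ n} ≤
          (ε / (2 * (m + 1)) * rr (ρs j)) * Set.ncard {v : Γ | len S v ≤ n} :=
        mul_le_mul_of_nonneg_right (hrr3 (ρs j)) (Nat.cast_nonneg _)
      refine le_of_mul_le_mul_right ?_ h9
      linarith
    have h11 : ((∑ j ∈ Finset.range m, (Bad j).ncard : ℕ) : ℝ) ≤
        m * (ε / (2 * (m + 1)) * Set.ncard {v : Γ | len S v ≤ n}) := by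
      push_cast
      refine (Finset.sum_le_sum h6).trans ?_
      rw [Finset.sum_const, Finset.card_range, nsmul_eq_mul]
    have h12 : (m : ℝ) * (ε / (2 * (m + 1)) * Set.ncard {v : Γ | len S v ≤ n}) ≤
        ε / 2 * Set.ncard {v : Γ | len S v ≤ n} := by
      have h13 : (m : ℝ) * (ε / (2 * (m + 1))) ≤ ε / 2 := by
        rw [mul_div_assoc', div_le_div_iff₀ (by positivity) (by positivity)]
        nlinarith [Nat.cast_nonneg (α := ℝ) m]
      calc (m : ℝ) * (ε / (2 * (m + 1)) * Set.ncard {v : Γ | len S v ≤ n})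
          = (m : ℝ) * (ε / (2 * (m + 1))) * Set.ncard {v : Γ | len S v ≤ n} := by ring
        _ ≤ ε / 2 * Set.ncard {v : Γ | len S v ≤ n} :=
          mul_le_mul_of_nonneg_right h13 (Nat.cast_nonneg _)
    have h4' : (Exc.ncard : ℝ) ≤ Set.ncard {v : Γ | len S v ≤ n - t} +
        ((∑ j ∈ Finset.range m, (Bad j).ncard : ℕ) : ℝ) := by exact_mod_cast h4
    linarith
  rw [hBncard]
  exact le_trans (by exact_mod_cast h1) h2

end Pool.Agent.Q149.AC
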